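import Pool.Agent.H.MP_56bf04_lc.Col

namespace Pool.Agent.H.MP_418eb4_lc
open Classical Encodable Denumerable Nat.Partrec Nat.Partrec.Code Pool.Agent.Lib.PR Pool.Agent.H.MP_56bf04_lc

def W (e : ℕ) : Set ℕ := {m | ((ofNat Code e).eval m).Dom}

/-- terms over variables X for the signature with constant symbols C and unary symbols F (outermost symbol first) -/
abbrev Tm (C F X : Type) := (X ⊕ C) × List F

variable {C F X : Type}

def op (f : F) (t : Tm C F X) : Tm C F X := (t.1, f :: t.2)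

def inst (s : ℕ → Tm C F X) : Tm C F ℕ → Tm C F X
  | (.inl v, w) => ((s v).1, w ++ (s v).2)
  | (.inr c, w) => (.inr c, w)

variable [Primcodable C] [Primcodable F] [Primcodable X]

/-- least congruence containing the pairs coded in A and all instances of the laws L -/
inductive Con (L : Set (Tm C F ℕ × Tm C F ℕ)) (A : Set ℕ) : Tm C F X → Tm C F X → Prop
  | base {s t} : encode (s, t) ∈ A → Con L A s t
  | law {l} (s) : l ∈ L → Con L A (inst s l.1) (inst s l.2)
  | refl (s) : Con L A s s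
  | symm {s t} : Con L A s t → Con L A t s
  | trans {s t u} : Con L A s t → Con L A t u → Con L A s u
  | op (f) {s t} : Con L A s t → Con L A (op f s) (op f t)

/-- the algebras presented by W e and W i on n generators are isomorphic -/
def Isom (L : Set (Tm C F ℕ × Tm C F ℕ)) (n e i : ℕ) : Prop :=
  ∃ φ : Quot (Con (X := Fin n) L (W e)) ≃ Quot (Con (X := Fin n) L (W i)),
    (∀ c, φ (.mk _ (.inr c, [])) = .mk _ (.inr c, [])) ∧
    ∀ f s t, φ (.mk _ s) = .mk _ t → φ (.mk _ (op f s)) = .mk _ (op f t)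

def Red (E G : ℕ → ℕ → Prop) : Prop := ∃ h : ℕ → ℕ, Computable h ∧ ∀ x y, E x y ↔ G (h x) (h y)

def Sig3 (E : ℕ → ℕ → Prop) : Prop := ∃ P : (ℕ × ℕ) × ℕ × ℕ × ℕ → Prop, ComputablePred P ∧
  ∀ x y, E x y ↔ ∃ a, ∀ b, ∃ c, P ((x, y), a, b, c)

def Complete (E : ℕ → ℕ → Prop) : Prop := Sig3 E ∧ ∀ G, Equivalence G → Sig3 G → Red G E

variable {L : Set (Tm C F ℕ × Tm C F ℕ)} {A : Set ℕ}

theorem Con.eqv : Equivalence (Con (X := X) L A) := ⟨.refl, .symm, .trans⟩

theorem mk_eq {s t : Tm C F X} : Quot.mk (Con L A) s = .mk _ t ↔ Con L A s t := Quot.eq.trans Con.eqv.eqvGen_iff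

attribute [local irreducible] Primrec Computable

section
variable {α β : Type} [Primcodable α] [Primcodable β] {p q : α → Prop}

theorem re_of {P : α → β → Prop} (h : Primrec fun x : α × β => cd (P x.1 x.2)) : REPred fun a => ∃ b, P a b :=
  (re_ex (Q := fun x : α × ℕ => ((decode x.2).map fun b => cd (P x.1 b)) = some true)
    (pred (p_eq (p_omap (p_decode .snd) (h.comp (g := fun z : (α × ℕ) × β => (z.1.1, z.2)) (by fun_prop)))
      (.const _))).computablePred).of_eq fun a =>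
    ⟨fun ⟨n, k⟩ => by cases e : decode (α := β) n <;> simp [e] at k; exact ⟨_, k⟩, fun ⟨b, k⟩ => ⟨encode b, by simpa⟩⟩

theorem re_comp {g : β → α} (h : REPred p) (k : Computable g) : REPred fun b => p (g b) := Partrec.comp h k

theorem re_prim (h : Primrec fun a => cd (p a)) : REPred p := (pred h).computablePred.to_re

theorem re_and (h : REPred p) (k : REPred q) : REPred fun a => p a ∧ q a := by
  obtain ⟨N, a, b, -, c⟩ := re_bool h
  obtain ⟨M, d, e, -, f⟩ := re_bool k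
  exact (re_of (P := fun a (s : ℕ × ℕ) => N a s.1 = true ∧ M a s.2 = true) (by fun_prop)).of_eq fun x =>
    ⟨fun ⟨_, i, j⟩ => ⟨b _ _ i, e _ _ j⟩, fun ⟨i, j⟩ => let ⟨s, i⟩ := c _ i; let ⟨t, j⟩ := f _ j; ⟨(s, t), i, j⟩⟩

theorem re_or (h : REPred p) (k : REPred q) : REPred fun a => p a ∨ q a := by
  obtain ⟨N, a, b, -, c⟩ := re_bool h
  obtain ⟨M, d, e, -, f⟩ := re_bool k
  exact (re_of (P := fun a (s : ℕ) => N a s = true ∨ M a s = true) (by fun_prop)).of_eq fun x =>
    ⟨fun ⟨_, i⟩ => i.imp (b _ _) (e _ _), fun i => i.elim (fun i => (c _ i).imp fun _ => .inl)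
      fun i => (f _ i).imp fun _ => .inr⟩

theorem re_exi {P : α × β → Prop} (h : REPred P) : REPred fun a => ∃ b, P (a, b) := by
  obtain ⟨N, a, b, -, c⟩ := re_bool h
  exact (re_of (P := fun a (s : β × ℕ) => N (a, s.1) s.2 = true) (by fun_prop)).of_eq fun x =>
    ⟨fun ⟨_, i⟩ => ⟨_, b _ _ i⟩, fun ⟨y, i⟩ => let ⟨s, i⟩ := c _ i; ⟨(y, s), i⟩⟩
end

theorem mem_W {e m} : m ∈ W e ↔ ∃ s, (evaln s (ofNat Code e) m).isSome := by
  simp only [W, Set.mem_ofPred_eq, Part.dom_iff_mem, evaln_complete, Option.isSome_iff_exists]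
  exact exists_comm

theorem rec_idx {R : ℕ × ℕ → Prop} (h : REPred R) : ∃ c, ∀ m, m ∈ W c ↔ R (c, m) := by
  obtain ⟨c, k⟩ := fixed_point₂ (f := fun c m => (Part.assert (R (encode c, m)) fun _ => Part.some ()).map fun _ => 0)
    (Partrec.map (re_comp h (g := fun z : Code × ℕ => (encode z.1, z.2)) (c_prim (by fun_prop))) (Computable.const 0).to₂)
  exact ⟨encode c, fun m => by simp [W, k, Part.assert]⟩

theorem smn_idx {R : ℕ × ℕ → Prop} (h : REPred R) : ∃ u : ℕ → ℕ, Computable u ∧ ∀ n m, m ∈ W (u n) ↔ R (n, m) := by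
  obtain ⟨c, k⟩ := rec_idx (re_comp h (g := fun z : ℕ × ℕ => z.2.unpair) (c_prim (by fun_prop)))
  exact ⟨fun n => encode (curry (ofNat Code c) n), (Primrec.encode.comp (primrec₂_curry.comp (.const _) .id)).to_comp,
    fun n m => by simpa [W] using k (n.pair m)⟩

theorem re_con (h : Primrec fun p : Tm C F X × Tm C F X => cd (∃ l ∈ L, ∃ s, (inst s l.1, inst s l.2) = p)) :
    REPred fun z : ℕ × Tm C F X × Tm C F X => Con L (W z.1) z.2.1 z.2.2 := by
  obtain ⟨I, hI⟩ : ∃ I : Tm C F X × Tm C F X → Bool, I = fun p => cd (∃ l ∈ L, ∃ s, (inst s l.1, inst s l.2) = p) :=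
    ⟨_, rfl⟩
  rw [← hI] at h
  replace hI := fun p => (Bool.eq_iff_iff.1 (congrFun hI p)).trans cd_true
  let St : ℕ → ℕ → List (Tm C F X × Tm C F X) → Tm C F X × Tm C F X → Prop := fun e s l p =>
    (evaln s (ofNat Code e) (encode p)).isSome ∨ I p = true ∨ p.1 = p.2 ∨
      (p.2, p.1) ∈ l ∨ (∃ q ∈ l, q.1 = p.1 ∧ (q.2, p.2) ∈ l) ∨ ∃ q ∈ l, ∃ f ∈ p.1.2, (op f q.1, op f q.2) = p
  let V := fun e s (l : List (Tm C F X × Tm C F X)) => ∀ i < l.length, ∀ p ∈ (l.drop i).take 1, St e s (l.take i) p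
  have mo : ∀ {e s s' l l' p}, s ≤ s' → l ⊆ l' → St e s l p → St e s' l' p := fun a b =>
    Or.imp (fun k => let ⟨_, k⟩ := Option.isSome_iff_exists.1 k; Option.isSome_iff_exists.2 ⟨_, evaln_mono a k⟩)
      (.imp_right (.imp_right (.imp (b ·) (.imp (fun ⟨q, i, j, k⟩ => ⟨q, b i, j, b k⟩) fun ⟨q, i, j⟩ => ⟨q, b i, j⟩))))
  have ap : ∀ {e s s' l l'}, V e s l → (∀ i < l'.length, ∀ p ∈ (l'.drop i).take 1, St e s' (l ++ l'.take i) p) →
      V e (max s s') (l ++ l') := fun {e s s' l l'} a b i c p d => by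
    by_cases k : i < l.length
    · rw [List.take_append_of_le_length k.le]
      rw [List.drop_append_of_le_length k.le, List.take_append_of_le_length (by simp; omega)] at d
      exact mo (le_max_left ..) (List.Subset.refl _) (a i k p d)
    · obtain ⟨j, rfl⟩ := Nat.exists_eq_add_of_le (not_lt.1 k)
      rw [List.take_length_add_append]
      exact mo (le_max_right ..) (List.Subset.refl _) (b j (by simpa using c) p (by simpa using d))
  have on : ∀ {e s s' l p}, V e s l → St e s' l p → ∃ b : ℕ × List _, V e b.1 b.2 ∧ p ∈ b.2 := fun {e s s' l p} a b =>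
    ⟨(_, _), ap (s' := s') (l' := [p]) a (fun i c q d => by
      obtain rfl : i = 0 := by simpa using c
      obtain rfl : q = p := by simpa using d
      simpa using b), by simp⟩
  have ni : ∀ e, V e 0 [] := by simp [V]
  refine (re_of (P := fun z (b : ℕ × List _) => V z.1 b.1 b.2 ∧ z.2 ∈ b.2)
    (by simp only [V, St, op]; fun_prop)).of_eq fun ⟨e, s, t⟩ => ⟨fun ⟨⟨n, l⟩, a, b⟩ => ?_, fun a => ?_⟩
  · have : ∀ i, ∀ p ∈ l.take i, Con L (W e) p.1 p.2 := fun i => by
      induction i with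
      | zero => simp
      | succ i ih =>
        rw [List.take_add]
        refine List.forall_mem_append.2 ⟨ih, fun p k => ?_⟩
        rcases a i (by by_contra n; simp [List.drop_of_length_le (not_lt.1 n)] at k) p k with
          k | k | k | k | ⟨q, i, j, k⟩ | ⟨q, i, _, _, rfl⟩
        exacts [.base (mem_W.2 ⟨_, k⟩), let ⟨_, k, _, o⟩ := (hI _).1 k; o ▸ .law _ k, k ▸ .refl _, (ih _ k).symm, j ▸ (ih _ i).trans (ih _ k), (ih _ i).op _]
    exact this l.length _ (by simpa using b)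
  · dsimp only at a ⊢
    induction a with
    | base k => exact let ⟨_, k⟩ := mem_W.1 k; on (ni e) (.inl k)
    | law s k => exact on (s' := 0) (ni e) (.inr (.inl ((hI _).2 ⟨_, k, s, rfl⟩)))
    | refl => exact on (s' := 0) (ni e) (.inr (.inr (.inl rfl)))
    | symm _ ih => obtain ⟨_, a, b⟩ := ih; exact on (s' := 0) a (.inr (.inr (.inr (.inl b))))
    | trans _ _ i j =>
      obtain ⟨_, a, b⟩ := i
      obtain ⟨_, c, d⟩ := j
      exact on (s' := 0) (ap a fun i k p o => mo le_rfl (by simp) (c i k p o))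
        (.inr (.inr (.inr (.inr (.inl ⟨_, List.mem_append_left _ b, rfl, List.mem_append_right _ d⟩)))))
    | op f _ ih => obtain ⟨_, a, b⟩ := ih; exact on (s' := 0) a (.inr (.inr (.inr (.inr (.inr ⟨_, b, f, .head _, rfl⟩)))))

def Pi2 {α : Type} [Primcodable α] (p : α → Prop) : Prop := ∃ R : α × ℕ → Prop, REPred R ∧ ∀ x, p x ↔ ∀ n, R (x, n)

section
variable {α β : Type} [Primcodable α] [Primcodable β] {p q : α → Prop}

theorem Pi2.of_eq (h : Pi2 p) (e : ∀ a, p a ↔ q a) : Pi2 q := (funext fun a => propext (e a) : p = q) ▸ h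

theorem Pi2.re (h : REPred p) : Pi2 p := ⟨_, re_comp h .fst, fun _ => by simp⟩

theorem Pi2.co (h : REPred p) : Pi2 fun a => ¬ p a :=
  let ⟨N, a, b, _, c⟩ := re_bool h
  ⟨fun z => ¬ N z.1 z.2 = true, re_prim (by fun_prop), fun x =>
    ⟨fun k n l => k (b _ _ l), fun k l => let ⟨s, l⟩ := c _ l; k s l⟩⟩

theorem Pi2.or (h : Pi2 p) (k : Pi2 q) : Pi2 fun a => p a ∨ q a :=
  let ⟨R, a, b⟩ := h; let ⟨S, c, d⟩ := k
  ⟨fun z => R (z.1, z.2.unpair.1) ∨ S (z.1, z.2.unpair.2), re_or (re_comp a (c_prim (by fun_prop)))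
    (re_comp c (c_prim (by fun_prop))), fun x => by
      refine (or_congr (b x) (d x)).trans ?_
      exact ⟨fun k n => k.imp (· _) (· _), fun k => or_iff_not_imp_left.2 fun l n =>
        let ⟨m, l⟩ := not_forall.1 l; by simpa [l] using k (m.pair n)⟩⟩

theorem Pi2.and (h : Pi2 p) (k : Pi2 q) : Pi2 fun a => p a ∧ q a :=
  let ⟨_, a, b⟩ := h; let ⟨_, c, d⟩ := k
  ⟨_, re_and a c, fun x => (and_congr (b x) (d x)).trans forall_and.symm⟩

theorem Pi2.iff (h : REPred p) (k : REPred q) : Pi2 fun a => p a ↔ q a :=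
  (((Pi2.co h).or (.re k)).and ((Pi2.co k).or (.re h))).of_eq fun _ => by tauto

theorem Pi2.all {P : α × β → Prop} (h : Pi2 P) : Pi2 fun a => ∀ b, P (a, b) := by
  obtain ⟨R, a, b⟩ := h
  obtain ⟨N, c, d, -, e⟩ := re_bool a
  refine ⟨fun z => ∃ s, ((decode (α := β × ℕ) z.2).map fun y => N ((z.1, y.1), y.2) s) ≠ some false,
    re_of (by fun_prop), fun x => ⟨fun k n => ?_, fun k y => (b _).2 fun n => ?_⟩⟩
  · dsimp only
    generalize decode (α := β × ℕ) n = o
    cases o with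
    | none => simp
    | some y => simpa using e _ ((b _).1 (k y.1) y.2)
  · obtain ⟨s, k⟩ := k (encode (y, n))
    exact d _ s (by simpa only [encodek, Option.map_some, ne_eq, Option.some.injEq, Bool.not_eq_false] using k)

theorem Pi2.comp {g : β → α} (h : Pi2 p) (k : Computable g) : Pi2 fun b => p (g b) :=
  let ⟨_, a, b⟩ := h; ⟨_, re_comp a ((k.comp .fst).pair .snd), fun _ => b _⟩
end

theorem not_complete {E : ℕ → ℕ → Prop} (h : ∀ i, Pi2 (E · i)) : ¬ Complete E := by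
  rintro ⟨-, k⟩
  let S := fun e : ℕ => ∃ n, e.pair n ∉ W e
  obtain ⟨g, a, b⟩ := k (fun x y => x = y ∨ (S x ∧ S y)) ⟨fun _ => .inl rfl, by grind, by grind⟩
    ⟨fun z => z.1.1 = z.1.2 ∨ (¬ (evaln z.2.2.1 (ofNat Code z.1.1) (z.1.1.pair z.2.1.unpair.1)).isSome = true ∧
      ¬ (evaln z.2.2.1 (ofNat Code z.1.2) (z.1.2.pair z.2.1.unpair.2)).isSome = true),
      (pred (by fun_prop)).computablePred, fun x y => by
        simp only [S, mem_W, not_exists, exists_const, forall_or_left, forall_and, exists_or]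
        exact or_congr_right ⟨fun ⟨⟨m, a⟩, n, b⟩ => ⟨m.pair n, by simpa only [Nat.unpair_pair] using And.intro a b⟩,
          fun ⟨_, a, b⟩ => ⟨⟨_, a⟩, _, b⟩⟩⟩
  obtain ⟨o, ho⟩ := rec_idx (R := fun _ => False) (re_prim (by fun_prop))
  obtain ⟨R, c, d⟩ := (h (g o)).comp a
  obtain ⟨e, he⟩ := rec_idx (re_comp c (g := fun z : ℕ × ℕ => z.2.unpair) (c_prim (by fun_prop)))
  have so : S o := ⟨0, by simp [ho]⟩
  have : S e ↔ ¬ S e := by
    refine Iff.trans ⟨fun k => .inr ⟨k, so⟩, fun k => k.elim (· ▸ so) (·.1)⟩ ((b e o).trans ((d e).trans ?_))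
    simp [S, he]
  tauto

end Pool.Agent.H.MP_418eb4_lc
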